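import Mathlib
import Pool.Agent.H16.KO

set_option autoImplicit false

namespace Pool.Agent.Results.MP_607283_al.Q1

open Pool.Agent.H16.KO

universe u

theorem result (A : Type u) [AddCommGroup A] [TopologicalSpace A] [IsTopologicalAddGroup A] [T2Space A]
    [LocallyCompactSpace A] :
    ∃ (G : Type u) (_ : Group G) (_ : TopologicalSpace G), IsTopologicalGroup G ∧ T2Space G ∧
      LocallyCompactSpace G ∧ Nonempty (KO G ≃ₜ* Multiplicative A) ∧ IsOpen (KO G : Set G) ∧
      KO G ≤ Subgroup.center G :=
  main

end Pool.Agent.Results.MP_607283_al.Q1
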